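import Pool.Agent.Helper15.FC.St1

set_option autoImplicit false

/-!
Project FC, module RDC: `R/(z - a)` is reduced.
-/

namespace Pool.Agent.Helper28.FC

open Pool.Agent.Helper15.FC Polynomial

private theorem cg_refl {L : Type} [Field L] {b : ℕ} (y : Fin b → PowerSeries L) (a : L)
    (u : PowerSeries L) : Cg y a u u :=
  ⟨0, (RR y).zero_mem, by simp⟩

private theorem cg_symm {L : Type} [Field L] {b : ℕ} {y : Fin b → PowerSeries L} {a : L}
    {u v : PowerSeries L} (h : Cg y a u v) : Cg y a v u := by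
  obtain ⟨g, hg, h⟩ := h
  exact ⟨-g, (RR y).neg_mem hg, by rw [mul_neg, ← h]; ring⟩

private theorem cg_trans {L : Type} [Field L] {b : ℕ} {y : Fin b → PowerSeries L} {a : L}
    {u v w : PowerSeries L} (h : Cg y a u v) (h' : Cg y a v w) : Cg y a u w := by
  obtain ⟨g, hg, h⟩ := h
  obtain ⟨g', hg', h'⟩ := h'
  exact ⟨g + g', (RR y).add_mem hg hg', by rw [mul_add, ← h, ← h']; ring⟩

private theorem cg_mul {L : Type} [Field L] {b : ℕ} {y : Fin b → PowerSeries L} {a : L}
    {u v u' v' : PowerSeries L} (hv : v ∈ RR y) (hu' : u' ∈ RR y)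
    (h : Cg y a u v) (h' : Cg y a u' v') : Cg y a (u * u') (v * v') := by
  obtain ⟨g, hg, h⟩ := h
  obtain ⟨g', hg', h'⟩ := h'
  refine ⟨g * u' + v * g', (RR y).add_mem ((RR y).mul_mem hg hu') ((RR y).mul_mem hv hg'), ?_⟩
  have e1 : u * u' - v * v' = (u - v) * u' + v * (u' - v') := by ring
  rw [e1, h, h']
  ring

private theorem cg_pow {L : Type} [Field L] {b : ℕ} {y : Fin b → PowerSeries L} {a : L}
    {u v : PowerSeries L} (hu : u ∈ RR y) (hv : v ∈ RR y) (h : Cg y a u v) (n : ℕ) :
    Cg y a (u ^ n) (v ^ n) := by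
  induction n with
  | zero => simpa using cg_refl y a 1
  | succ n ih =>
    rw [pow_succ, pow_succ]
    exact cg_mul ((RR y).pow_mem hv n) hu ih h

/-- the linear substitution on polynomials -/
private noncomputable def sb {L : Type} [Field L] {b : ℕ} (d : Matrix (Fin b) (Fin b) L) :
    Option (Fin b) → MvPolynomial (Option (Fin b)) L :=
  fun o => o.elim (MvPolynomial.X none) (fun i => ∑ j, MvPolynomial.C (d i j) *
    MvPolynomial.X (some j))

private theorem ev_sb {L : Type} [Field L] {b : ℕ} (d : Matrix (Fin b) (Fin b) L)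
    (y : Fin b → PowerSeries L) (Φ : MvPolynomial (Option (Fin b)) L) :
    ev y (MvPolynomial.aeval (sb d) Φ) = ev (cy d y) Φ := by
  have h : (ev y).comp (MvPolynomial.aeval (sb d)) = ev (cy d y) := by
    apply MvPolynomial.algHom_ext
    intro o
    rw [AlgHom.comp_apply, MvPolynomial.aeval_X]
    unfold ev sb
    cases o with
    | none =>
      rw [MvPolynomial.aeval_X]
      simp [pt]
    | some i =>
      rw [MvPolynomial.aeval_X]
      simp [pt, cy]
  exact DFunLike.congr_fun h Φ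

private theorem cy_cy {L : Type} [Field L] {b : ℕ} (d c : Matrix (Fin b) (Fin b) L)
    (y : Fin b → PowerSeries L) : cy d (cy c y) = cy (d * c) y := by
  funext i
  unfold cy
  simp only [Matrix.mul_apply, map_sum, map_mul, Finset.mul_sum, Finset.sum_mul]
  rw [Finset.sum_comm]
  refine Finset.sum_congr rfl fun j _ => Finset.sum_congr rfl fun l _ => ?_
  ring

private theorem cy_one {L : Type} [Field L] {b : ℕ} (y : Fin b → PowerSeries L) :
    cy (1 : Matrix (Fin b) (Fin b) L) y = y := by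
  funext i
  unfold cy
  rw [Finset.sum_eq_single i]
  · simp
  · intro j _ hj
    rw [Matrix.one_apply_ne (Ne.symm hj)]
    simp
  · intro h
    exact absurd (Finset.mem_univ i) h

private theorem ev_mem {L : Type} [Field L] {b : ℕ} (y : Fin b → PowerSeries L)
    (Φ : MvPolynomial (Option (Fin b)) L) : ev y Φ ∈ RR y := ⟨Φ, rfl⟩

private theorem ev_cy_mem {L : Type} [Field L] {b : ℕ} (y : Fin b → PowerSeries L)
    (d : Matrix (Fin b) (Fin b) L)
    (Φ : MvPolynomial (Option (Fin b)) L) : ev (cy d y) Φ ∈ RR y := by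
  rw [← ev_sb]
  exact ev_mem y _

theorem hRDC (hMOD : StMOD) : StRDC := by
  intro k L _ _ _ _ _ b s XX y c a e hS hL hs he hce hN u n hu hn h0
  set Y := upL L y with hY
  set d : Matrix (Fin b) (Fin b) L := c.map (algebraMap k L) with hd
  set Q := Fintype.card L with hQ
  have hM : ∀ Φ : MvPolynomial (Option (Fin b)) L, Cg Y a ((ev Y Φ) ^ Q) (ev (cy d Y) Φ) :=
    hMOD k L b s XX y c a hS hL hN
  have hit : ∀ (m : ℕ) (Φ : MvPolynomial (Option (Fin b)) L),
      Cg Y a ((ev Y Φ) ^ (Q ^ m)) (ev (cy (d ^ m) Y) Φ) := by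
    intro m
    induction m with
    | zero =>
      intro Φ
      rw [pow_zero, pow_one, pow_zero, cy_one]
      exact cg_refl _ _ _
    | succ m ih =>
      intro Φ
      rw [pow_succ, pow_mul, pow_succ d]
      have h1 := cg_pow ((RR Y).pow_mem (ev_mem Y Φ) (Q ^ m)) (ev_cy_mem Y (d ^ m) Φ) (ih Φ) Q
      refine cg_trans h1 ?_
      have h2 := hM (MvPolynomial.aeval (sb (d ^ m)) Φ)
      rw [ev_sb, ev_sb, cy_cy] at h2
      exact h2
  have hde : d ^ e = 1 := by
    have h1 : d ^ e = (c ^ e).map (algebraMap k L) := by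
      have := map_pow ((algebraMap k L).mapMatrix : Matrix (Fin b) (Fin b) k →+* _) c e
      exact this.symm
    rw [h1, hce]
    exact Matrix.map_one _ (map_zero _) (map_one _)
  have hfix : ∀ w ∈ RR Y, Cg Y a (w ^ (Q ^ e)) w := by
    rintro w ⟨Φ, rfl⟩
    have h1 := hit e Φ
    rw [hde, cy_one] at h1
    exact h1
  have hiter : ∀ t : ℕ, Cg Y a (u ^ ((Q ^ e) ^ t)) u := by
    intro t
    induction t with
    | zero =>
      rw [pow_zero, pow_one]
      exact cg_refl _ _ _
    | succ t ih =>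
      rw [pow_succ, pow_mul]
      exact cg_trans (hfix _ ((RR Y).pow_mem hu _)) ih
  have hQ2 : 2 ≤ Q := Fintype.one_lt_card
  have hQe : 2 ≤ Q ^ e := le_trans hQ2 (Nat.le_self_pow (by omega) Q)
  have hge : n ≤ (Q ^ e) ^ n :=
    le_trans (Nat.lt_two_pow_self (n := n)).le (Nat.pow_le_pow_left hQe n)
  have h3 : Cg Y a (u ^ ((Q ^ e) ^ n)) 0 := by
    obtain ⟨r, hr⟩ := Nat.exists_eq_add_of_le hge
    rw [hr, pow_add]
    have h4 := cg_mul (RR Y).zero_mem ((RR Y).pow_mem hu r) h0 (cg_refl Y a (u ^ r))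
    rwa [zero_mul] at h4
  exact cg_trans (cg_symm (hiter n)) h3

end Pool.Agent.Helper28.FC
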